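import Pool.Agent.N275.QD.Res

set_option autoImplicit false

/-!
# Any two trapezoids with the same Dirichlet spectrum are congruent

Trapezoids include parallelograms, rectangles and squares. It is enough that all but finitely many
Dirichlet eigenvalues agree. This is a special case of a theorem on convex quadrilaterals
(`Results/MP_5b0138_an/ConvexQuadrilaterals`), where the main idea of the proof is explained.
-/

open Set Filter
open Pool.Agent.W703.GP (dirichletEigenvalue)

namespace Pool.Agent.Results.MP_2d4879_an.Trapezoids

/-- The interior of the convex hull of `a`, `b`, `c`, `d`, if it is not empty, is an arbitrary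
trapezoid with the parallel sides `ab` and `dc`, whose ratio is `r`, and `a'`, `b'`, `c'`, `d'` are
the vertices of a second one. If the Dirichlet eigenvalues number `k` of the two, with multiplicity,
defined by the min-max formula, agree for all but finitely many `k`, then an isometry `φ` of the
plane maps one trapezoid onto the other. -/
theorem result (a b c d a' b' c' d' : ℂ) (r r' : ℝ) (hr : 0 < r) (hr' : 0 < r')
    (hpar : c - d = r * (b - a)) (hpar' : c' - d' = r' * (b' - a'))
    (hP : (interior (convexHull ℝ {a, b, c, d})).Nonempty)
    (hQ : (interior (convexHull ℝ {a', b', c', d'})).Nonempty)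
    (h : ∀ᶠ k in atTop, dirichletEigenvalue (interior (convexHull ℝ {a, b, c, d})) k =
      dirichletEigenvalue (interior (convexHull ℝ {a', b', c', d'})) k) :
    ∃ φ : ℂ ≃ᵢ ℂ, φ '' interior (convexHull ℝ {a, b, c, d}) =
      interior (convexHull ℝ {a', b', c', d'}) :=
  Pool.Agent.N275.QD.trap_hull a b c d a' b' c' d' r r' hr hr' hpar hpar' hP hQ h

end Pool.Agent.Results.MP_2d4879_an.Trapezoids
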